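import Pool.Agent.N971.MF.EUL
import Pool.Agent.N877.P24.LE

/-!
# The `L`-series of the twists of `X_0(24)` by `-n`, `n` squarefree, `n` not `1` modulo `3`
-/

set_option autoImplicit false
set_option linter.unusedSectionVars false
set_option linter.style.haveILetI false

open NumberField IsDedekindDomain WeierstrassCurve Pool.Agent.W189.NF
open Pool.Agent.H921R2.TatePole (nm)
open Pool.Agent.Y698 (AP min_count v_unit)
open Pool.Agent.W97.MT (affCount ap)
open Pool.Agent.N54.MF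
open Pool.Agent.N971.MF (E24 W)
open Pool.Agent.N971.MF.EUL

namespace Pool.Agent.N402.P24L

section Local

variable (R : Type) [CommRing R] [IsDomain R] [IsDiscreteValuationRing R] {L : Type}
  [Field L] [Algebra R L] [IsFractionRing R L]

open IsDiscreteValuationRing

/-- additive reduction from the valuations of `Δ` and `c₄` -/
theorem min_addc {W : WeierstrassCurve L} {m k : ℕ} (hm : ¬ 12 ∣ m) (hk : ¬ 4 ∣ k)
    (hΔ : (maximalIdeal R).valuation L W.Δ = WithZero.exp (-(m : ℤ)))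
    (hc4 : (maximalIdeal R).valuation L W.c₄ = WithZero.exp (-(k : ℤ))) :
    aLoc R W = 0 ∧ eLoc R W = 0 := by
  set v := (maximalIdeal R).valuation L with hv
  obtain ⟨C, hC⟩ : ∃ C : VariableChange L, W.minimal R = C • W := ⟨_, rfl⟩
  set u : L := ((C.u⁻¹ : Lˣ) : L) with hu
  have hu0 : u ≠ 0 := (C.u⁻¹).ne_zero
  have hd : (W.minimal R).Δ = u ^ 12 * W.Δ := by rw [hC, variableChange_Δ]
  have hc : (W.minimal R).c₄ = u ^ 4 * W.c₄ := by rw [hC, variableChange_c₄]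
  have h2 : v u ≠ 0 := (Valuation.ne_zero_iff v).2 hu0
  obtain ⟨i, hi⟩ : ∃ i : ℤ, v u = WithZero.exp i := ⟨WithZero.log (v u), (WithZero.exp_log h2).symm⟩
  have hng : ¬ (W.minimal R).HasGoodReduction R := by
    intro h
    have h1 := h.goodReduction
    rw [hd, map_mul, hΔ, map_pow, hi, ← WithZero.exp_nsmul, ← WithZero.exp_add,
      WithZero.exp_eq_one] at h1
    simp only [nsmul_eq_mul] at h1
    push_cast at h1
    omega
  have hnm : ¬ (W.minimal R).HasMultiplicativeReduction R := by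
    intro h
    have h1 := h.multiplicativeReduction
    rw [hc, map_mul, hc4, map_pow, hi, ← WithZero.exp_nsmul, ← WithZero.exp_add,
      WithZero.exp_eq_one] at h1
    simp only [nsmul_eq_mul] at h1
    push_cast at h1
    omega
  have hns : ¬ (W.minimal R).HasSplitMultiplicativeReduction R := fun h =>
    hnm h.toHasMultiplicativeReduction
  unfold aLoc eLoc
  rw [if_neg hng, if_neg hng, if_neg hns, if_neg hnm]
  exact ⟨rfl, rfl⟩

end Local

/-! ### the numbers of points -/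

section
variable (p : ℕ) [hp : Fact p.Prime]

theorem ap_twist' (hp2 : p ≠ 2) {n : ℕ} (hn : ¬ p ∣ n) :
    ap (W n) p = ap E24 p * jacobiSym (-(n : ℤ)) p := by
  have hn0 : (-(n : ZMod p)) ≠ 0 := by
    rw [neg_ne_zero]
    intro h
    exact hn ((ZMod.natCast_eq_zero_iff n p).1 h)
  have hq : quadraticChar (ZMod p) (-(n : ZMod p)) = jacobiSym (-(n : ℤ)) p := by
    rw [← jacobiSym.legendreSym.to_jacobiSym]
    show _ = quadraticChar (ZMod p) ((-(n : ℤ) : ℤ) : ZMod p)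
    push_cast
    rfl
  unfold ap
  rw [affCount_W p hp2, affCount_E24 p hp2, ← hq, sub_add_cancel_left, sub_add_cancel_left,
    neg_mul, Finset.sum_mul]
  congr 1
  symm
  refine Fintype.sum_equiv ((Equiv.subRight (1 : ZMod p)).trans (Equiv.mulLeft₀ (-(n : ZMod p)) hn0))
    _ _ fun x => ?_
  have h4' : quadraticChar (ZMod p) (-(n : ZMod p)) = quadraticChar (ZMod p) ((-(n : ZMod p)) ^ 3) := by
    rw [pow_succ, map_mul, quadraticChar_sq_one' hn0, one_mul]
  rw [h4', ← map_mul, Equiv.trans_apply, Equiv.mulLeft₀_apply, Equiv.subRight_apply]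
  congr 1
  ring

end

/-! ### the local factors -/

section
variable (v : HeightOneSpectrum (𝓞 ℚ)) {n : ℕ}

theorem sq_factor {p n : ℕ} (hp : p.Prime) (hsq : Squarefree n) (hd : p ∣ n) :
    ∃ m : ℕ, n = p * m ∧ ¬ p ∣ m := by
  obtain ⟨m, hm⟩ := hd
  refine ⟨m, hm, fun h => ?_⟩
  obtain ⟨k, hk⟩ := h
  have : p * p ∣ n := ⟨k, by rw [hm, hk]; ring⟩
  have := hsq _ this
  exact hp.one_lt.ne' (Nat.isUnit_iff.1 this)

theorem fac2 (hsq : Squarefree n) (h2 : ng v = 2) : aV (WQ n) v = 0 ∧ eV (WQ n) v = 0 := by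
  have key : ∀ m : ℕ, ¬ 2 ∣ m → ¬ (ng v : ℤ) ∣ 9 * (m : ℤ) ^ 6 := by
    intro m hm
    rw [h2]
    intro h
    have h1 : (2 : ℤ) ∣ 9 * (m : ℤ) ^ 6 := by exact_mod_cast h
    rcases Int.prime_two.dvd_or_dvd h1 with h3 | h3
    · norm_num at h3
    · have := Int.prime_two.dvd_of_dvd_pow h3
      omega
  by_cases hd : 2 ∣ n
  · obtain ⟨m, hm, hpm⟩ := sq_factor Nat.prime_two hsq hd
    refine additive v (m := 14) (by norm_num) (c := 9 * (m : ℤ) ^ 6) (key m hpm) ?_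
      (by rw [h2]; norm_num)
    rw [h2, hm]
    push_cast
    ring
  · refine additive v (m := 8) (by norm_num) (c := 9 * (n : ℤ) ^ 6) (key n hd) ?_
      (by rw [h2]; norm_num)
    rw [h2]
    push_cast
    ring

theorem facd (hsq : Squarefree n) (hp2 : ng v ≠ 2) (hp3 : ng v ≠ 3) (hd : ng v ∣ n) :
    aV (WQ n) v = 0 ∧ eV (WQ n) v = 0 := by
  have hp := ng_prime v
  obtain ⟨m, hm, hpm⟩ := sq_factor hp hsq hd
  refine additive v (m := 6) (by norm_num) (c := 2304 * (m : ℤ) ^ 6) ?_ ?_ hp3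
  · intro h
    have hz : Prime ((ng v : ℕ) : ℤ) := Nat.prime_iff_prime_int.1 hp
    rcases hz.dvd_or_dvd h with h3 | h3
    · have h4 : ng v ∣ 2 ^ 8 * 3 ^ 2 := by
        have : ((ng v : ℕ) : ℤ) ∣ ((2 ^ 8 * 3 ^ 2 : ℕ) : ℤ) := by
          norm_num
          exact h3
        exact_mod_cast this
      rcases (hp.dvd_mul).1 h4 with h5 | h5
      · exact hp2 ((Nat.prime_dvd_prime_iff_eq hp Nat.prime_two).1 (hp.dvd_of_dvd_pow h5))
      · exact hp3 ((Nat.prime_dvd_prime_iff_eq hp Nat.prime_three).1 (hp.dvd_of_dvd_pow h5))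
    · have := hz.dvd_of_dvd_pow h3
      exact hpm (by exact_mod_cast this)
  · have : (n : ℤ) = (ng v : ℤ) * m := by exact_mod_cast hm
    rw [this]
    ring

theorem fac3 (hsq : Squarefree n) (h3 : ng v = 3) (hd : 3 ∣ n) :
    aV (WQ n) v = 0 ∧ eV (WQ n) v = 0 := by
  obtain ⟨m, hm, hpm⟩ := sq_factor Nat.prime_three hsq hd
  have hpr := Int.prime_three
  have key : ∀ (c : ℤ) (i : ℕ), ¬ (3 : ℤ) ∣ c → ¬ (ng v : ℤ) ∣ c * (m : ℤ) ^ i := by
    intro c i hc
    rw [h3]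
    intro h
    have h1 : (3 : ℤ) ∣ c * (m : ℤ) ^ i := by exact_mod_cast h
    rcases hpr.dvd_or_dvd h1 with h4 | h4
    · exact hc h4
    · have := hpr.dvd_of_dvd_pow h4
      omega
  refine min_addc (v.adicCompletionIntegers ℚ) (m := 8) (k := 2) (by norm_num) (by norm_num) ?_ ?_
  · rw [Δ_L]
    have e : (2304 * (n : ℤ) ^ 6 : ℤ) = (ng v : ℤ) ^ 8 * (256 * (m : ℤ) ^ 6) := by
      rw [h3, hm]
      push_cast
      ring
    rw [e]
    exact vint v 8 (key 256 6 (by norm_num))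
  · rw [c₄_L]
    have e : (208 * (n : ℤ) ^ 2 : ℤ) = (ng v : ℤ) ^ 2 * (208 * (m : ℤ) ^ 2) := by
      rw [h3, hm]
      push_cast
      ring
    rw [e]
    exact vint v 2 (key 208 2 (by norm_num))

theorem fac3n (hn : n % 3 = 2) (h3 : ng v = 3) : aV (WQ n) v = -1 ∧ eV (WQ n) v = 0 := by
  have hn3 : ¬ (3 : ℤ) ∣ (n : ℤ) := by omega
  have hpr := Int.prime_three
  have h1 : ¬ (ng v : ℤ) ∣ 256 * (n : ℤ) ^ 6 := by
    rw [h3]
    intro h
    have h' : (3 : ℤ) ∣ 256 * (n : ℤ) ^ 6 := by exact_mod_cast h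
    rcases hpr.dvd_or_dvd h' with h4 | h4
    · norm_num at h4
    · exact hn3 (hpr.dvd_of_dvd_pow h4)
  have h2 := vint v 2 h1
  have hΔ0 : ((W n).map (Int.castRingHom (Ov v))).Δ ≠ 0 := by
    intro h0
    have h5 := congrArg (algebraMap (Ov v) (v.adicCompletion ℚ)) h0
    rw [map_Δ, W_Δ, eq_intCast, map_intCast, map_zero] at h5
    have e : (2304 * (n : ℤ) ^ 6 : ℤ) = (ng v : ℤ) ^ 2 * (256 * (n : ℤ) ^ 6) := by
      rw [h3]; push_cast; ring
    rw [e] at h5
    rw [h5, map_zero] at h2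
    exact WithZero.exp_ne_zero h2.symm
  have hΔu : ¬ IsUnit ((W n).map (Int.castRingHom (Ov v))).Δ := by
    rw [map_Δ, W_Δ, eq_intCast, unit_int, not_not, h3]
    exact ⟨768 * (n : ℤ) ^ 6, by push_cast; ring⟩
  have hc : IsUnit ((W n).map (Int.castRingHom (Ov v))).c₄ := by
    rw [map_c₄, W_c₄, eq_intCast, unit_int, h3]
    intro h
    have h' : (3 : ℤ) ∣ 208 * (n : ℤ) ^ 2 := by exact_mod_cast h
    rcases hpr.dvd_or_dvd h' with h4 | h4
    · norm_num at h4
    · exact hn3 (hpr.dvd_of_dvd_pow h4)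
  refine min_mult (v.adicCompletionIntegers ℚ) hΔ0 hΔu hc ?_ (base_eq v (W n))
  intro s w hw h
  rw [map_c₄, map_c₆, W_c₄, W_c₆, eq_intCast, eq_intCast, ← Int.cast_mul, map_intCast] at h
  have h5 := congrArg ((res v).trans (ZMod.ringEquivCongr h3)) h
  rw [map_pow, map_mul, map_pow, map_neg, map_intCast] at h5
  have hw' : ((res v).trans (ZMod.ringEquivCongr h3)) w ≠ 0 := by
    rw [Ne, map_eq_zero_iff _ (RingEquiv.injective _)]
    exact hw
  have h6 : ((208 * (n : ℤ) ^ 2 * (2240 * (n : ℤ) ^ 3) : ℤ) : ZMod 3) = 1 := by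
    obtain ⟨k, hk⟩ : ∃ k : ℕ, n = 3 * k + 2 := ⟨n / 3, by omega⟩
    rw [hk]
    push_cast
    have h0 : (3 : ZMod 3) = 0 := rfl
    rw [h0, zero_mul, zero_add]
    decide
  rw [h6] at h5
  generalize ((res v).trans (ZMod.ringEquivCongr h3)) s = s' at h5
  generalize ((res v).trans (ZMod.ringEquivCongr h3)) w = w' at h5 hw'
  revert s' w'
  decide

end

/-- **The `L`-series of the twists.** -/
theorem eul {n : ℕ} (hsq : Squarefree n) (hn3 : n % 3 ≠ 1) {χ : ℕ → ℤ}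
    (hχ : ∀ p : ℕ, p.Prime → p ≠ 2 → χ p = jacobiSym (-(n : ℤ)) p) {s : ℂ} (hs : 2 < s.re) {u : ℂ}
    (hu : HasProd (fun p : Nat.Primes => (1 - (ap E24 p : ℂ) * χ p * (p : ℂ) ^ (-s) +
      (if (p : ℕ) ∣ 24 then 0 else (p : ℂ)) * (χ p : ℂ) ^ 2 * (p : ℂ) ^ (-2 * s))⁻¹) u) :
    ((W n).map (Int.castRingHom ℚ)).LSeries s = u := by
  have h1 := (LSeries_hasProd (WQ n) hs).2
  have h2 := (Rat.HeightOneSpectrum.primesEquiv (R := 𝓞 ℚ)).hasProd_iff.2 hu
  refine h1.unique ?_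
  refine (congrArg (fun g => HasProd g u) (funext fun v => ?_)).mp h2
  have hp := ng_prime v
  have e1 : (((Rat.HeightOneSpectrum.primesEquiv v : Nat.Primes) : ℕ)) = ng v := rfl
  simp only [Function.comp_apply]
  rw [e1, nm_eq_ng v]
  have e2 : ((ng v : ℕ) : ℂ) ^ (-2 * s) = (((ng v : ℕ) : ℂ) ^ (-s)) ^ 2 := by
    rw [← Complex.cpow_nat_mul]
    congr 1
    push_cast
    ring
  rw [e2]
  by_cases h_2 : ng v = 2
  · obtain ⟨a1, a2⟩ := fac2 v hsq h_2
    rw [a1, a2, h_2, ap_E24_two, if_pos (by norm_num)]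
    push_cast
    ring
  have hdz : ng v ∣ n → jacobiSym (-(n : ℤ)) (ng v) = 0 := by
    intro hd
    haveI : NeZero (ng v) := ⟨hp.ne_zero⟩
    rw [jacobiSym.eq_zero_iff_not_coprime, Int.neg_gcd, Int.gcd_natCast_natCast]
    intro hg
    have := Nat.dvd_gcd hd (dvd_refl (ng v))
    rw [hg] at this
    exact hp.one_lt.ne' (Nat.dvd_one.1 this)
  have hndz : ¬ ng v ∣ n → jacobiSym (-(n : ℤ)) (ng v) = 1 ∨ jacobiSym (-(n : ℤ)) (ng v) = -1 := by
    intro hd
    refine jacobiSym.eq_one_or_neg_one ?_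
    rw [Int.neg_gcd, Int.gcd_natCast_natCast]
    exact ((Nat.Prime.coprime_iff_not_dvd hp).2 hd).symm
  rw [hχ _ hp h_2]
  by_cases h_3 : ng v = 3
  · by_cases h3n : 3 ∣ n
    · obtain ⟨a1, a2⟩ := fac3 v hsq h_3 h3n
      have hz : jacobiSym (-(n : ℤ)) (ng v) = 0 := hdz (by rw [h_3]; exact h3n)
      rw [a1, a2, hz]
      push_cast
      ring
    · obtain ⟨a1, a2⟩ := fac3n v (n := n) (by omega) h_3
      have hj : jacobiSym (-(n : ℤ)) 3 = 1 := by
        have h7 : jacobiSym (-(n : ℤ)) 3 = jacobiSym (-(n : ℤ) % 3) 3 := by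
          exact jacobiSym.mod_left _ _
        rw [h7, show -(n : ℤ) % 3 = 1 by omega]
        norm_num
      rw [a1, a2, h_3, ap_E24_three, if_pos (by norm_num), hj]
      push_cast
      ring
  have h24 : ¬ ng v ∣ 24 := by
    intro h
    have h5 : ng v ∣ 2 ^ 3 * 3 := by norm_num; exact h
    rcases (hp.dvd_mul).1 h5 with h6 | h6
    · exact h_2 ((Nat.prime_dvd_prime_iff_eq hp Nat.prime_two).1 (hp.dvd_of_dvd_pow h6))
    · exact h_3 ((Nat.prime_dvd_prime_iff_eq hp Nat.prime_three).1 h6)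
  by_cases hd : ng v ∣ n
  · obtain ⟨a1, a2⟩ := facd v hsq h_2 h_3 hd
    rw [a1, a2, hdz hd]
    push_cast
    ring
  · obtain ⟨a1, a2⟩ := fac_good v h_2 h_3 hd
    have : Fact (ng v).Prime := ⟨hp⟩
    rw [a1, a2, ap_twist' (ng v) h_2 hd, if_neg h24]
    have hx2 : ((jacobiSym (-(n : ℤ)) (ng v) : ℤ) : ℂ) ^ 2 = 1 := by
      rcases hndz hd with h | h <;> rw [h] <;> norm_num
    rw [hx2]
    push_cast
    ring

end Pool.Agent.N402.P24L
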