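import Pool.Agent.N975.ChE2
import Pool.Agent.R343.HalfSum

/-!
# The Gauss sum of the quadratic character of `ℚ(√-n)`, `n ≡ 2 mod 4`
-/

set_option autoImplicit false

namespace Pool.Agent.N402.P24L

open Finset ZMod
open Pool.Agent.N969.P15 (Ev chE c2)
open Pool.Agent.N975.ChE

/-- the Gauss sum of the Jacobi symbol -/
theorem jac_gauss (m : ℕ) (hm : Odd m) (hs : Squarefree m) :
    ∑ r ∈ range m, ((jacobiSym (r : ℤ) m : ℤ) : ℂ) *
      Complex.exp (2 * Real.pi * Complex.I * r / m) =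
      (if m % 4 = 1 then 1 else Complex.I) * (Real.sqrt m : ℝ) := by
  have h1 := Pool.Agent.H268R2.RZHT.Gk_all 1 m hm hs
  rw [Pool.Agent.H987R2.RZ.Gk_eq] at h1
  have hjs : Pool.Agent.H306R2.RZ.js 1 m = 1 := by
    unfold Pool.Agent.H306R2.RZ.js
    rw [jacobiSym.one_left]
    norm_num
  rw [hjs, one_mul] at h1
  have h2 : ∑ r ∈ range m, ((jacobiSym (r : ℤ) m : ℤ) : ℂ) *
      Complex.exp (2 * Real.pi * Complex.I * r / m) =
      (Pool.Agent.H987R2.RZ.Cs 1 m : ℂ) + (Pool.Agent.H987R2.RZ.Sn 1 m : ℂ) * Complex.I := by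
    unfold Pool.Agent.H987R2.RZ.Cs Pool.Agent.H987R2.RZ.Sn
    rw [Complex.ofReal_sum, Complex.ofReal_sum, Finset.sum_mul, ← Finset.sum_add_distrib]
    refine Finset.sum_congr rfl fun b _ => ?_
    have h3 : (2 * Real.pi * Complex.I * (b : ℂ) / m : ℂ) =
        (((2 * Real.pi * ((1 : ℤ) : ℝ) * (b : ℝ) / (m : ℝ)) : ℝ) : ℂ) * Complex.I := by
      push_cast; ring
    rw [h3, Complex.exp_mul_I, ← Complex.ofReal_cos, ← Complex.ofReal_sin]
    unfold Pool.Agent.H306R2.RZ.js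
    push_cast
    ring
  rw [h2]
  have hm4 : m % 4 = 1 ∨ m % 4 = 3 := by
    have := Nat.odd_iff.1 hm
    omega
  rcases hm4 with h4 | h4
  · rw [if_pos h4, one_mul]
    have h5 := Pool.Agent.H268R2.RZHT.sum_cos 1 m hm hs h4
    rw [hjs, one_mul] at h5
    have h6 : Pool.Agent.H987R2.RZ.Cs 1 m = Real.sqrt m := h5
    rw [h6] at h1 ⊢
    have h7 : Pool.Agent.H987R2.RZ.Sn 1 m = 0 := by linarith
    rw [h7]
    simp
  · rw [if_neg (by omega)]
    have h6 := Pool.Agent.H987R2.RZ.Cs_zero 1 m h4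
    rw [h6] at h1 ⊢
    have h7 : Pool.Agent.H987R2.RZ.Sn 1 m = Real.sqrt m := by linarith
    rw [h7]
    push_cast
    ring

theorem zeta8 (a : ℕ) : Complex.exp (2 * Real.pi * Complex.I * a / 8) =
    (((Real.sqrt 2 : ℝ) : ℂ) / 2 * (1 + Complex.I)) ^ a := by
  have h1 : Complex.exp (2 * Real.pi * Complex.I * a / 8) =
      Complex.exp (((Real.pi / 4 : ℝ) : ℂ) * Complex.I) ^ a := by
    rw [← Complex.exp_nat_mul]
    congr 1
    push_cast
    ring
  rw [h1, Complex.exp_mul_I, ← Complex.ofReal_cos, ← Complex.ofReal_sin, Real.cos_pi_div_four,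
    Real.sin_pi_div_four]
  congr 1
  push_cast
  ring

theorem sqrt8 : Real.sqrt 8 = 2 * Real.sqrt 2 := by
  rw [show (8 : ℝ) = 2 ^ 2 * 2 by norm_num, Real.sqrt_mul (by norm_num), Real.sqrt_sq (by norm_num)]

theorem gs8 : ∑ a ∈ range 8, ((χ₈ (a : ZMod 8) : ℤ) : ℂ) *
    Complex.exp (2 * Real.pi * Complex.I * a / 8) = ((Real.sqrt 8 : ℝ) : ℂ) := by
  have e0 : χ₈ ((0 : ℕ) : ZMod 8) = 0 := by decide
  have e1 : χ₈ ((1 : ℕ) : ZMod 8) = 1 := by decide
  have e2 : χ₈ ((2 : ℕ) : ZMod 8) = 0 := by decide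
  have e3 : χ₈ ((3 : ℕ) : ZMod 8) = -1 := by decide
  have e4 : χ₈ ((4 : ℕ) : ZMod 8) = 0 := by decide
  have e5 : χ₈ ((5 : ℕ) : ZMod 8) = -1 := by decide
  have e6 : χ₈ ((6 : ℕ) : ZMod 8) = 0 := by decide
  have e7 : χ₈ ((7 : ℕ) : ZMod 8) = 1 := by decide
  simp only [Finset.sum_range_succ, Finset.sum_range_zero]
  rw [e0, e1, e2, e3, e4, e5, e6, e7]
  simp only [zeta8]
  have hs : ((Real.sqrt 2 : ℝ) : ℂ) ^ 2 = 2 := by
    rw [← Complex.ofReal_pow, Real.sq_sqrt (by norm_num)]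
    norm_num
  have hI := Complex.I_sq
  set w : ℂ := ((Real.sqrt 2 : ℝ) : ℂ) with hw
  have z2 : (w / 2 * (1 + Complex.I)) ^ 2 = Complex.I := by
    linear_combination (1 / 4 * (1 + Complex.I) ^ 2) * hs + 1 / 2 * hI
  have z3 : (w / 2 * (1 + Complex.I)) ^ 3 = Complex.I * (w / 2 * (1 + Complex.I)) := by
    rw [pow_succ, z2]
  have z5 : (w / 2 * (1 + Complex.I)) ^ 5 = -(w / 2 * (1 + Complex.I)) := by
    have : (w / 2 * (1 + Complex.I)) ^ 5 = ((w / 2 * (1 + Complex.I)) ^ 2) ^ 2 *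
      (w / 2 * (1 + Complex.I)) := by ring
    rw [this, z2, hI]
    ring
  have z7 : (w / 2 * (1 + Complex.I)) ^ 7 = -(Complex.I * (w / 2 * (1 + Complex.I))) := by
    have : (w / 2 * (1 + Complex.I)) ^ 7 = ((w / 2 * (1 + Complex.I)) ^ 2) ^ 2 *
      ((w / 2 * (1 + Complex.I)) ^ 2 * (w / 2 * (1 + Complex.I))) := by ring
    rw [this, z2, hI]
    ring
  rw [z3, z5, z7, sqrt8, pow_one]
  push_cast
  rw [← hw]
  linear_combination (-w) * hI

theorem gs8' : ∑ a ∈ range 8, ((χ₈' (a : ZMod 8) : ℤ) : ℂ) *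
    Complex.exp (2 * Real.pi * Complex.I * a / 8) = Complex.I * ((Real.sqrt 8 : ℝ) : ℂ) := by
  have e0 : χ₈' ((0 : ℕ) : ZMod 8) = 0 := by decide
  have e1 : χ₈' ((1 : ℕ) : ZMod 8) = 1 := by decide
  have e2 : χ₈' ((2 : ℕ) : ZMod 8) = 0 := by decide
  have e3 : χ₈' ((3 : ℕ) : ZMod 8) = 1 := by decide
  have e4 : χ₈' ((4 : ℕ) : ZMod 8) = 0 := by decide
  have e5 : χ₈' ((5 : ℕ) : ZMod 8) = -1 := by decide
  have e6 : χ₈' ((6 : ℕ) : ZMod 8) = 0 := by decide
  have e7 : χ₈' ((7 : ℕ) : ZMod 8) = -1 := by decide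
  simp only [Finset.sum_range_succ, Finset.sum_range_zero]
  rw [e0, e1, e2, e3, e4, e5, e6, e7]
  simp only [zeta8]
  have hs : ((Real.sqrt 2 : ℝ) : ℂ) ^ 2 = 2 := by
    rw [← Complex.ofReal_pow, Real.sq_sqrt (by norm_num)]
    norm_num
  have hI := Complex.I_sq
  set w : ℂ := ((Real.sqrt 2 : ℝ) : ℂ) with hw
  have z2 : (w / 2 * (1 + Complex.I)) ^ 2 = Complex.I := by
    linear_combination (1 / 4 * (1 + Complex.I) ^ 2) * hs + 1 / 2 * hI
  have z3 : (w / 2 * (1 + Complex.I)) ^ 3 = Complex.I * (w / 2 * (1 + Complex.I)) := by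
    rw [pow_succ, z2]
  have z5 : (w / 2 * (1 + Complex.I)) ^ 5 = -(w / 2 * (1 + Complex.I)) := by
    have : (w / 2 * (1 + Complex.I)) ^ 5 = ((w / 2 * (1 + Complex.I)) ^ 2) ^ 2 *
      (w / 2 * (1 + Complex.I)) := by ring
    rw [this, z2, hI]
    ring
  have z7 : (w / 2 * (1 + Complex.I)) ^ 7 = -(Complex.I * (w / 2 * (1 + Complex.I))) := by
    have : (w / 2 * (1 + Complex.I)) ^ 7 = ((w / 2 * (1 + Complex.I)) ^ 2) ^ 2 *
      ((w / 2 * (1 + Complex.I)) ^ 2 * (w / 2 * (1 + Complex.I))) := by ring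
    rw [this, z2, hI]
    ring
  rw [z3, z5, z7, sqrt8, pow_one]
  push_cast
  rw [← hw]
  linear_combination w * hI

/-- the sum over the residues by the Chinese remainder theorem -/
theorem crt_sum {k m : ℕ} (hc : Nat.Coprime k m) [NeZero (k * m)]
    (f : ZMod (k * m) → ℂ) :
    ∑ x : ZMod (k * m), f x = ∑ a ∈ range k, ∑ b ∈ range m, f ((m * a + k * b : ℕ) : ZMod (k * m)) := by
  rw [← Finset.sum_product']
  symm
  have hinj : Set.InjOn (fun p : ℕ × ℕ => ((m * p.1 + k * p.2 : ℕ) : ZMod (k * m)))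
      ((range k ×ˢ range m : Finset (ℕ × ℕ)) : Set (ℕ × ℕ)) := by
    rintro ⟨a, b⟩ h1 ⟨a', b'⟩ h2 h
    simp only [Finset.coe_product, Finset.coe_range, Set.mem_prod, Set.mem_Iio] at h1 h2
    simp only at h
    have h3 := (ZMod.natCast_eq_natCast_iff _ _ _).1 h
    have h4 : m * a + k * b ≡ m * a' + k * b' [MOD k] := h3.of_mul_right m
    have h5 : m * a + k * b ≡ m * a' + k * b' [MOD m] := h3.of_mul_left k
    have h6 : m * a ≡ m * a' [MOD k] := by
      have e1 : m * a + k * b ≡ m * a [MOD k] := by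
        unfold Nat.ModEq
        rw [Nat.add_mul_mod_self_left]
      have e2 : m * a' + k * b' ≡ m * a' [MOD k] := by
        unfold Nat.ModEq
        rw [Nat.add_mul_mod_self_left]
      exact e1.symm.trans (h4.trans e2)
    have h7 : k * b ≡ k * b' [MOD m] := by
      have e1 : m * a + k * b ≡ k * b [MOD m] := by
        unfold Nat.ModEq
        rw [Nat.add_comm, Nat.add_mul_mod_self_left]
      have e2 : m * a' + k * b' ≡ k * b' [MOD m] := by
        unfold Nat.ModEq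
        rw [Nat.add_comm, Nat.add_mul_mod_self_left]
      exact e1.symm.trans (h5.trans e2)
    have h8 : a ≡ a' [MOD k] := Nat.ModEq.cancel_left_of_coprime hc h6
    have h9 : b ≡ b' [MOD m] := Nat.ModEq.cancel_left_of_coprime hc.symm h7
    rw [Prod.mk.injEq]
    exact ⟨Nat.ModEq.eq_of_lt_of_lt h8 h1.1 h2.1, Nat.ModEq.eq_of_lt_of_lt h9 h1.2 h2.2⟩
  refine Finset.sum_nbij (fun p : ℕ × ℕ => ((m * p.1 + k * p.2 : ℕ) : ZMod (k * m)))
    (fun _ _ => mem_univ _) hinj ?_ (fun _ _ => rfl)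
  refine Finset.surjOn_of_injOn_of_card_le _ (fun _ _ => mem_univ _) hinj ?_
  rw [Finset.card_product, Finset.card_range, Finset.card_range, Finset.card_univ, ZMod.card]

/-- **The Gauss sum.** -/
theorem gs4 {n : ℕ} [NeZero n] (hE : Ev n) (h8 : n % 16 = 8) :
    gaussSum (chi n (ev_mod hE)) (stdAddChar (N := n)) = Complex.I * (Real.sqrt n : ℝ) := by
  obtain ⟨m, hsq, hm2, hcase, hpf⟩ := ev_odd hE
  have hn : n = 8 * m := by
    rcases hcase with ⟨h, h4⟩ | h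
    · omega
    · exact h
  subst hn
  have hmo : Odd m := Nat.odd_iff.2 hm2
  have hm0 : 0 < m := by omega
  have hc : Nat.Coprime 8 m := by
    have : Nat.Coprime (2 ^ 3) m := Nat.Coprime.pow_left 3 (Nat.coprime_two_left.2 hmo)
    exact this
  set c : ZMod 8 → ℤ := fun a => if (8 * m) % 32 = 8 then χ₈' a else χ₈ a with hcdef
  have hcm : ∀ a b : ZMod 8, c (a * b) = c a * c b := by
    intro a b
    simp only [hcdef]
    split_ifs <;> rw [map_mul]
  have hchE : ∀ a b : ℕ, chE (8 * m) ((m * a + 8 * b : ℕ) : ℤ) =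
      (c (m : ZMod 8) * χ₈ (m : ZMod 8)) * (c (a : ZMod 8) * jacobiSym (b : ℤ) m) := by
    intro a b
    unfold chE
    rw [hpf, jac_sqfree _ hsq, c2_eq, if_neg (by omega)]
    have e1 : (((m * a + 8 * b : ℕ) : ℤ) : ZMod 8) = (m : ZMod 8) * (a : ZMod 8) := by
      push_cast
      have : (8 : ZMod 8) = 0 := rfl
      rw [this, zero_mul, add_zero]
    have e2 : jacobiSym ((m * a + 8 * b : ℕ) : ℤ) m = χ₈ (m : ZMod 8) * jacobiSym (b : ℤ) m := by
      have e3 : jacobiSym ((m * a + 8 * b : ℕ) : ℤ) m = jacobiSym (8 * (b : ℤ)) m := by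
        refine jacobiSym.mod_left' ?_
        push_cast
        rw [add_comm, Int.add_mul_emod_self_left]
      rw [e3, jacobiSym.mul_left, show (8 : ℤ) = 2 * 2 ^ 2 by norm_num, jacobiSym.mul_left,
        jacobiSym.sq_one' (by
          rw [Int.gcd_comm]
          have : Nat.Coprime m 2 := Nat.coprime_two_right.2 hmo
          exact_mod_cast this), mul_one, jacobiSym.at_two hmo]
    have e4 : (if (8 * m) % 32 = 8 then χ₈' ((((m * a + 8 * b : ℕ) : ℤ)) : ZMod 8)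
        else χ₈ ((((m * a + 8 * b : ℕ) : ℤ)) : ZMod 8)) = c ((m : ZMod 8) * (a : ZMod 8)) := by
      rw [e1]
    rw [e4, e2, hcm]
    ring
  have hexp : ∀ a b : ℕ, stdAddChar (N := 8 * m) ((m * a + 8 * b : ℕ) : ZMod (8 * m)) =
      Complex.exp (2 * Real.pi * Complex.I * a / 8) *
        Complex.exp (2 * Real.pi * Complex.I * b / m) := by
    intro a b
    have hm' : (m : ℂ) ≠ 0 := by exact_mod_cast hm0.ne'
    have h3 : ((m * a + 8 * b : ℕ) : ZMod (8 * m)) = (((m * a + 8 * b : ℕ) : ℤ) : ZMod (8 * m)) := by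
      push_cast
      rfl
    rw [h3, stdAddChar_coe, ← Complex.exp_add]
    congr 1
    push_cast
    field_simp
  unfold gaussSum
  rw [crt_sum hc]
  have hmain : ∀ a ∈ range 8, ∀ b ∈ range m,
      chi (8 * m) (ev_mod hE) ((m * a + 8 * b : ℕ) : ZMod (8 * m)) *
        stdAddChar (N := 8 * m) ((m * a + 8 * b : ℕ) : ZMod (8 * m)) =
      ((c (m : ZMod 8) * χ₈ (m : ZMod 8) : ℤ) : ℂ) *
      ((((c (a : ZMod 8) : ℤ) : ℂ) * Complex.exp (2 * Real.pi * Complex.I * a / 8)) *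
        (((jacobiSym (b : ℤ) m : ℤ) : ℂ) * Complex.exp (2 * Real.pi * Complex.I * b / m))) := by
    intro a _ b _
    rw [chi_nat, hchE, hexp]
    push_cast
    ring
  rw [Finset.sum_congr rfl fun a ha => Finset.sum_congr rfl (hmain a ha)]
  simp only [← Finset.mul_sum]
  rw [← Finset.sum_mul, jac_gauss m hmo hsq]
  have hsq8 : Real.sqrt ((8 * m : ℕ) : ℝ) = Real.sqrt 8 * Real.sqrt m := by
    push_cast
    rw [Real.sqrt_mul (by norm_num)]
  rw [hsq8]
  have hm4 : m % 4 = 1 ∨ m % 4 = 3 := by omega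
  rcases hm4 with h4 | h4
  · have hcc : c = fun a => χ₈' a := by
      funext a
      simp only [hcdef]
      rw [if_pos (by omega)]
    have h1 : ∑ a ∈ range 8, ((c (a : ZMod 8) : ℤ) : ℂ) *
        Complex.exp (2 * Real.pi * Complex.I * a / 8) = Complex.I * ((Real.sqrt 8 : ℝ) : ℂ) := by
      rw [hcc]
      exact gs8'
    have h2 : c (m : ZMod 8) * χ₈ (m : ZMod 8) = 1 := by
      rw [hcc]
      have hm8 : m % 8 = 1 ∨ m % 8 = 5 := by omega
      have hz : (m : ZMod 8) = ((m % 8 : ℕ) : ZMod 8) := by rw [ZMod.natCast_mod]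
      rw [hz]
      rcases hm8 with h | h <;> rw [h] <;> decide
    rw [h1, h2, if_pos h4]
    push_cast
    ring
  · have hcc : c = fun a => χ₈ a := by
      funext a
      simp only [hcdef]
      rw [if_neg (by omega)]
    have h1 : ∑ a ∈ range 8, ((c (a : ZMod 8) : ℤ) : ℂ) *
        Complex.exp (2 * Real.pi * Complex.I * a / 8) = ((Real.sqrt 8 : ℝ) : ℂ) := by
      rw [hcc]
      exact gs8
    have h2 : c (m : ZMod 8) * χ₈ (m : ZMod 8) = 1 := by
      rw [hcc]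
      have hm8 : m % 8 = 3 ∨ m % 8 = 7 := by omega
      have hz : (m : ZMod 8) = ((m % 8 : ℕ) : ZMod 8) := by rw [ZMod.natCast_mod]
      rw [hz]
      rcases hm8 with h | h <;> rw [h] <;> decide
    rw [h1, h2, if_neg (by omega)]
    push_cast
    ring

end Pool.Agent.N402.P24L
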