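import Pool.Agent.N402.P24L.Eul
import Pool.Agent.N402.P24L.Gs
import Pool.Agent.N877.P24.Defs3
import Pool.Agent.N974.Gen.Mel
import Pool.Agent.N975.LfinE

/-!
# The central values of the `L`-functions of the twists of `X_0(24)`: the other perfect classes
-/

set_option autoImplicit false
set_option linter.style.haveILetI false

open Finset ZMod

namespace Pool.Agent.N402.P24L


open Pool.Agent.N971.MF (E24 W cubic JJ f24 Symb24 symb)
open Pool.Agent.N971.MF.EUL (affCount_W ap_E24_two W_Δ)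
open Pool.Agent.W97.MT (ap affCount)
open Pool.Agent.N969.P15 (Ev chE c2)
open Pool.Agent.N877.P24 (un ClA3 ClE2 ClE6 FC cc ce S_DIAGA3 S_DIAGE2 S_DIAGE6 S_SUMC)
open Pool.Agent.N975.ChE
open Pool.Agent.Y687 (p_cpow)

/-- the newform of level `24` -/
theorem eigen24 : Pool.Agent.N974.Gen.Eigen f24 (fun p => ap E24 p) where
  one := (Pool.Agent.N971.MF.Inst.facts).2.1
  hecke := fun p hp z => (Pool.Agent.N971.MF.Inst.facts).2.2.2 p hp z
  good := fun p hp _ => by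
    have h1 := Pool.Agent.N971.MF.Inst.good p hp
    rw [(Pool.Agent.N971.MF.Inst.facts).2.2.1 p hp, Complex.norm_intCast] at h1
    exact h1
  bad := fun p hp hd => by
    have h1 := Pool.Agent.N971.MF.Inst.bad p hp hd
    rw [(Pool.Agent.N971.MF.Inst.facts).2.2.1 p hp, Complex.norm_intCast] at h1
    exact h1

theorem II_eq (r : ℚ) : Pool.Agent.N974.Gen.II f24 r = JJ (2 * r) := by
  unfold Pool.Agent.N974.Gen.II Pool.Agent.N971.MF.JJ
  congr 1
  refine MeasureTheory.setIntegral_congr_fun measurableSet_Ioi fun t ht => ?_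
  have ht0 : (0 : ℝ) < t := ht
  have him : 0 < ((r : ℂ) + t * Complex.I).im := by simpa using ht0
  have e1 : Pool.Agent.N974.Gen.ff f24 ((r : ℂ) + t * Complex.I) =
      Pool.Agent.N971.MF.ff ((r : ℂ) + t * Complex.I) := by
    unfold Pool.Agent.N974.Gen.ff
    rw [UpperHalfPlane.ofComplex_apply_of_im_pos him]
    rfl
  rw [e1]
  congr 2
  push_cast
  ring

/-- the symmetric part of the sum over the residues is zero -/
theorem sum_even_zero' {q : ℕ} (hq : 1 < q) (χ : ℕ → ℤ)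
    (hodd : ∀ u : ℕ, u < q → Nat.Coprime u q → χ (q - u) = -χ u)
    (s : ℚ → ℤ) (hneg : ∀ x, s (-x) = s x) (hper : ∀ x, s (x + 1) = -s x) :
    ∑ u ∈ un q, χ u * s (2 * ((u : ℚ) / q)) = 0 := by
  have mem_un : ∀ a : ℕ, a ∈ un q ↔ a < q ∧ Nat.Coprime a q := fun a => by
    unfold un
    rw [mem_filter, mem_range]
  have hper2 : ∀ x, s (x + 2) = s x := fun x => by
    rw [show x + 2 = (x + 1) + 1 by ring, hper, hper, neg_neg]
  have hpos : ∀ a : ℕ, Nat.Coprime a q → a ≠ 0 := by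
    rintro a h rfl
    rw [Nat.coprime_zero_left] at h
    omega
  have hmem : ∀ a ∈ un q, q - a ∈ un q := by
    intro a ha
    rw [mem_un] at ha ⊢
    have h0 := hpos a ha.2
    exact ⟨by omega, (Nat.coprime_self_sub_left ha.1.le).2 ha.2⟩
  have h : ∑ u ∈ un q, χ u * s (2 * ((u : ℚ) / q)) =
      -∑ u ∈ un q, χ u * s (2 * ((u : ℚ) / q)) := by
    rw [← Finset.sum_neg_distrib]
    refine Finset.sum_bij' (fun a _ => q - a) (fun a _ => q - a) hmem hmem ?_ ?_ ?_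
    · intro a ha
      rw [mem_un] at ha
      have := ha.1
      show q - (q - a) = a
      omega
    · intro a ha
      rw [mem_un] at ha
      have := ha.1
      show q - (q - a) = a
      omega
    · intro a ha
      rw [mem_un] at ha
      have hn : (q : ℚ) ≠ 0 := by exact_mod_cast (by omega : q ≠ 0)
      have e1 : (2 * (((q - a : ℕ) : ℚ) / q)) = -(2 * ((a : ℚ) / q)) + 2 := by
        rw [Nat.cast_sub ha.1.le]
        field_simp
        ring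
      rw [e1, hper2, hneg, hodd a ha.1 ha.2]
      ring
  omega

/-- the value for a quadratic character -/
theorem value_gen {n r q : ℕ} (hn : Squarefree n) (hn3 : n % 3 ≠ 1) (hr : 0 < r)
    (hq : q = r ^ 2 * n) (hq1 : 1 < q) [NeZero q] (X : DirichletCharacter ℂ q) (hX : X.IsPrimitive)
    (hinv : X⁻¹ = X) (hτ : gaussSum X (stdAddChar (N := q)) = Complex.I * (Real.sqrt q : ℝ))
    (χ : ℕ → ℤ) (hχ : ∀ m : ℕ, X (m : ZMod q) = ((χ m : ℤ) : ℂ))
    (hχp : ∀ p : ℕ, p.Prime → p ≠ 2 → χ p = jacobiSym (-(n : ℤ)) p)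
    (hodd : ∀ u : ℕ, u < q → Nat.Coprime u q → χ (q - u) = -χ u) :
    ∃ (f : ℂ → ℂ) (sm : ℚ → ℤ), Differentiable ℂ f ∧ Symb24 sm ∧
      (∀ s : ℂ, 2 < s.re → f s = ((W n).map (Int.castRingHom ℚ)).LSeries s) ∧
      (2 * r * f 1 = (((∑ u ∈ un q, χ u * sm (2 * ((u : ℚ) / q)) : ℤ) : ℝ) *
        (∫ x in {x : ℝ | 0 < cubic (W n) x}, 1 / √(cubic (W n) x)) : ℝ)) ∧
      (0 < ∫ x in {x : ℝ | 0 < cubic (W n) x}, 1 / √(cubic (W n) x)) ∧
      ∀ s : ℂ, 3 / 2 < s.re → HasProd (fun p : Nat.Primes =>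
        (1 - (ap E24 p : ℂ) * χ p * (p : ℂ) ^ (-s) +
          (if (p : ℕ) ∣ 24 then 0 else (p : ℂ)) * (χ p : ℂ) ^ 2 *
            (p : ℂ) ^ (-2 * s))⁻¹) (f s) := by
  classical
  have hn1 : 0 < n := Nat.pos_of_ne_zero hn.ne_zero
  obtain ⟨g, hg1, hg2, hg3⟩ := Pool.Agent.N974.Gen.exists_L_all f24 eigen24 X hX
  obtain ⟨L, Op, Om, hOp, hOm, g2, g3, hL⟩ := Pool.Agent.N971.MF.LAT.s_lat
  obtain ⟨sp, sm, hs, hev, hpr, hS, -⟩ := symb L g2 g3 hOp hOm hL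
  have hper := Pool.Agent.N971.MF.PER.s_per L Op Om hOp hOm g2 g3 hL n hn1
  have hn0 : (0 : ℝ) < n := by exact_mod_cast hn1
  have hsn : (0 : ℝ) < Real.sqrt n := Real.sqrt_pos.2 hn0
  have hEP : ∀ s : ℂ, 3 / 2 < s.re → HasProd (fun p : Nat.Primes =>
        (1 - (ap E24 p : ℂ) * χ p * (p : ℂ) ^ (-s) +
          (if (p : ℕ) ∣ 24 then 0 else (p : ℂ)) * (χ p : ℂ) ^ 2 *
            (p : ℂ) ^ (-2 * s))⁻¹) (g s) := by
    intro s h3
    refine (congrArg (fun g => HasProd g _) (funext fun p => ?_)).mp (hg2 s h3)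
    rw [hχ]
  refine ⟨g, sm, hg1, hS, ?_, ?_, ?_, hEP⟩
  · intro s hs2
    exact (eul hn hn3 hχp hs2 (hEP s (by linarith))).symm
  · rw [hper]
    rw [hinv, hτ] at hg3
    have e1 : ∑ u : (ZMod q)ˣ, X (u : ZMod q) *
        Pool.Agent.N974.Gen.II f24 (((u : ZMod q).val : ℚ) / q) =
        ∑ a ∈ un q, ((χ a : ℤ) : ℂ) * JJ (2 * ((a : ℚ) / q)) := by
      have e := Pool.Agent.N975.LfinE.sum_unC (M := q)
        (fun a : ℕ => ((χ a : ℤ) : ℂ) * JJ (2 * ((a : ℚ) / q)))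
      refine Eq.trans ?_ e.symm
      refine Finset.sum_congr rfl fun u _ => ?_
      rw [← hχ, ZMod.natCast_zmod_val, II_eq]
    rw [e1] at hg3
    have e2 : (2 : ℂ) * ∑ a ∈ un q, ((χ a : ℤ) : ℂ) * JJ (2 * ((a : ℚ) / q)) =
        ((∑ u ∈ un q, χ u * sp (2 * ((u : ℚ) / q)) : ℤ) : ℂ) * Op +
        ((∑ u ∈ un q, χ u * sm (2 * ((u : ℚ) / q)) : ℤ) : ℂ) * Om * Complex.I := by
      push_cast
      rw [Finset.mul_sum, Finset.sum_mul, Finset.sum_mul, Finset.sum_mul,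
        ← Finset.sum_add_distrib]
      refine Finset.sum_congr rfl fun a _ => ?_
      have := hs (2 * ((a : ℚ) / q))
      linear_combination ((χ a : ℤ) : ℂ) * this
    rw [sum_even_zero' hq1 χ hodd sp hev hpr, ← hg3] at e2
    set SM : ℤ := ∑ u ∈ un q, χ u * sm (2 * ((u : ℚ) / q)) with hSM
    have hs0 : ((Real.sqrt n : ℝ) : ℂ) ≠ 0 := by exact_mod_cast hsn.ne'
    have hsq : Real.sqrt (q : ℝ) = r * Real.sqrt n := by
      rw [hq]
      push_cast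
      rw [Real.sqrt_mul (by positivity), Real.sqrt_sq (by positivity)]
    rw [hsq] at e2
    have h7 : Complex.I * (2 * (r * (Real.sqrt n : ℝ)) * g 1) = Complex.I * ((SM : ℂ) * Om) := by
      rw [Int.cast_zero] at e2
      push_cast at e2
      linear_combination e2
    have h8 := mul_left_cancel₀ Complex.I_ne_zero h7
    push_cast
    rw [← mul_div_assoc, eq_div_iff hs0]
    linear_combination h8
  · rw [hper]
    exact div_pos hOm hsn

/-! ### odd discriminants -/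

theorem jac_neg_sub {n : ℕ} (h4 : n % 4 = 3) {u : ℕ} (hu : u < n) :
    jacobiSym (((n - u : ℕ)) : ℤ) n = -jacobiSym (u : ℤ) n := by
  rw [Nat.cast_sub hu.le, show ((n : ℤ) - (u : ℤ)) = -(u : ℤ) + n * 1 by ring]
  have e3 : jacobiSym (-(u : ℤ) + n * 1) n = jacobiSym (-(u : ℤ)) n := by
    refine jacobiSym.mod_left' ?_
    rw [Int.add_mul_emod_self_left]
  rw [e3, jacobiSym.neg _ (Nat.odd_iff.2 (by omega)), ZMod.χ₄_nat_three_mod_four h4]
  ring

theorem jac_recip {n : ℕ} (h4 : n % 4 = 3) {p : ℕ} (hp : p.Prime) (hp2 : p ≠ 2) :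
    jacobiSym (p : ℤ) n = jacobiSym (-(n : ℤ)) p := by
  have hpo : Odd p := hp.odd_of_ne_two hp2
  rw [jacobiSym.neg _ hpo]
  rcases Nat.odd_mod_four_iff.1 (Nat.odd_iff.1 hpo) with h | h
  · rw [ZMod.χ₄_nat_one_mod_four h, one_mul]
    exact jacobiSym.quadratic_reciprocity_one_mod_four h (Nat.odd_iff.2 (by omega))
  · rw [ZMod.χ₄_nat_three_mod_four h, jacobiSym.quadratic_reciprocity_three_mod_four h4 h]
    ring

theorem value_odd {n : ℕ} (hn : Squarefree n) (h4 : n % 4 = 3) (hn3 : n % 3 ≠ 1) :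
    ∃ (f : ℂ → ℂ) (sm : ℚ → ℤ), Differentiable ℂ f ∧ Symb24 sm ∧
      (∀ s : ℂ, 2 < s.re → f s = ((W n).map (Int.castRingHom ℚ)).LSeries s) ∧
      (2 * f 1 = (((∑ u ∈ un n, jacobiSym u n * sm (2 * ((u : ℚ) / n)) : ℤ) : ℝ) *
        (∫ x in {x : ℝ | 0 < cubic (W n) x}, 1 / √(cubic (W n) x)) : ℝ)) ∧
      (0 < ∫ x in {x : ℝ | 0 < cubic (W n) x}, 1 / √(cubic (W n) x)) ∧
      ∀ s : ℂ, 3 / 2 < s.re → HasProd (fun p : Nat.Primes =>
        (1 - (ap E24 p : ℂ) * jacobiSym p n * (p : ℂ) ^ (-s) +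
          (if (p : ℕ) ∣ 24 then 0 else (p : ℂ)) * (jacobiSym p n : ℂ) ^ 2 *
            (p : ℂ) ^ (-2 * s))⁻¹) (f s) := by
  have hodd : Odd n := Nat.odd_iff.2 (by omega)
  have h1 : 1 < n := by omega
  haveI : NeZero n := ⟨by omega⟩
  set d : Pool.Agent.H491R3.J.OS := ⟨n, hodd, hn, h1⟩ with hd
  obtain ⟨f, sm, k1, k2, k3, k4, k5, k6⟩ := value_gen (r := 1) (q := n) hn hn3 one_pos
    (by ring) h1 (Pool.Agent.H491R3.J.chi d) (Pool.Agent.H491R3.J.chi_primitive d)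
    (Pool.Agent.H491R3.J.chi_inv d) (Pool.Agent.N877.P24.gs_eq d h4)
    (fun m => jacobiSym (m : ℤ) n) (Pool.Agent.H491R3.J.chi_natCast d)
    (fun p hp hp2 => jac_recip h4 hp hp2) (fun u hu _ => jac_neg_sub h4 hu)
  refine ⟨f, sm, k1, k2, k3, ?_, k5, k6⟩
  rw [← k4]
  push_cast
  ring

/-! ### even discriminants -/

theorem chE_neg_one {n : ℕ} (hE : Ev n) : chE n (-1) = -1 := by
  obtain ⟨k, hsq, hk, hcase, hpf⟩ := ev_odd hE
  have hko : Odd k := Nat.odd_iff.2 hk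
  unfold chE
  rw [hpf, jac_sqfree _ hsq, jacobiSym.at_neg_one hko]
  unfold c2
  rcases hcase with ⟨rfl, h1⟩ | rfl
  · rw [if_neg (by norm_num), if_pos (by omega), if_neg (by norm_num),
      ZMod.χ₄_nat_one_mod_four h1]
    norm_num
  · rw [if_neg (by norm_num), if_neg (by omega)]
    rcases (by omega : k % 4 = 1 ∨ k % 4 = 3) with h | h
    · rw [if_pos (by omega), if_neg (by norm_num), ZMod.χ₄_nat_one_mod_four h]
      norm_num
    · rw [if_neg (by omega), if_pos (by norm_num), ZMod.χ₄_nat_three_mod_four h]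
      norm_num

theorem value_even {n : ℕ} (hn : Squarefree n) (h4 : n % 4 = 2) (hn3 : n % 3 ≠ 1) :
    ∃ (f : ℂ → ℂ) (sm : ℚ → ℤ), Differentiable ℂ f ∧ Symb24 sm ∧
      (∀ s : ℂ, 2 < s.re → f s = ((W n).map (Int.castRingHom ℚ)).LSeries s) ∧
      (4 * f 1 = (((∑ u ∈ un (4 * n), chE (4 * n) u * sm (2 * ((u : ℚ) / (4 * n : ℕ))) : ℤ) : ℝ) *
        (∫ x in {x : ℝ | 0 < cubic (W n) x}, 1 / √(cubic (W n) x)) : ℝ)) ∧
      (0 < ∫ x in {x : ℝ | 0 < cubic (W n) x}, 1 / √(cubic (W n) x)) ∧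
      ∀ s : ℂ, 3 / 2 < s.re → HasProd (fun p : Nat.Primes =>
        (1 - (ap E24 p : ℂ) * chE (4 * n) p * (p : ℂ) ^ (-s) +
          (if (p : ℕ) ∣ 24 then 0 else (p : ℂ)) * (chE (4 * n) p : ℂ) ^ 2 *
            (p : ℂ) ^ (-2 * s))⁻¹) (f s) := by
  have hE : Ev (4 * n) := ⟨n, rfl, hn, Or.inr h4⟩
  haveI : NeZero (4 * n) := ⟨by omega⟩
  obtain ⟨f, sm, k1, k2, k3, k4, k5, k6⟩ := value_gen (r := 2) (q := 4 * n) hn hn3 two_pos
    (by ring) (by omega) (chi (4 * n) (ev_mod hE)) (chi_primitive hE) (chi_inv _ _)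
    (gs4 hE (by omega)) (fun m => chE (4 * n) (m : ℤ)) (fun m => chi_nat _ _ m)
    (fun p hp hp2 => by
      have h := chE_prime hE hp hp2
      rw [Nat.mul_div_cancel_left n (by norm_num)] at h
      exact h) (fun u hu _ => by
      rw [Nat.cast_sub hu.le]
      have e1 : chE (4 * n) (((4 * n : ℕ) : ℤ) - (u : ℤ)) = chE (4 * n) (-1 * (u : ℤ)) :=
        chE_mod (ev_mod hE) ⟨1, by ring⟩
      rw [e1, chE_mul, chE_neg_one hE]
      ring)
  refine ⟨f, sm, k1, k2, k3, ?_, k5, k6⟩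
  rw [← k4]
  push_cast
  ring

/-! ### the Euler product in terms of the numbers of points -/

theorem ap_W_two_even {n : ℕ} (h2 : n % 2 = 0) : ap (W n) 2 = 0 := by
  have e : affCount (W n) 2 = Nat.card {P : ZMod 2 × ZMod 2 // P.2 ^ 2 = P.1 ^ 3} := by
    unfold affCount
    refine Nat.card_congr (Equiv.subtypeEquivRight fun P => ?_)
    rw [WeierstrassCurve.Affine.equation_iff]
    simp only [W, WeierstrassCurve.map, map_zero, eq_intCast]
    have hn : ((n : ℕ) : ZMod 2) = 0 := by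
      have : ((n : ℕ) : ZMod 2) = ((n % 2 : ℕ) : ZMod 2) := by rw [ZMod.natCast_mod]
      rw [this, h2, Nat.cast_zero]
    push_cast
    rw [hn]
    revert P
    decide
  unfold ap
  rw [e, Nat.card_eq_fintype_card]
  decide

theorem ap_W_two_all (n : ℕ) : ap (W n) 2 = 0 := by
  rcases Nat.mod_two_eq_zero_or_one n with h | h
  · exact ap_W_two_even h
  · exact Pool.Agent.N877.P24.ap_W_two h

/-- the Euler product in terms of the curve -/
theorem euler_gen {n : ℕ} {χ : ℕ → ℤ}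
    (hχ : ∀ p : ℕ, p.Prime → p ≠ 2 → χ p = jacobiSym (-(n : ℤ)) p) {s v : ℂ}
    (h : HasProd (fun p : Nat.Primes =>
        (1 - (ap E24 p : ℂ) * χ p * (p : ℂ) ^ (-s) +
          (if (p : ℕ) ∣ 24 then 0 else (p : ℂ)) * (χ p : ℂ) ^ 2 *
            (p : ℂ) ^ (-2 * s))⁻¹) v) :
    HasProd (fun p : Nat.Primes => (1 - (ap (W n) p : ℂ) * ((p : ℕ) : ℂ) ^ (-s) +
      (if ((p : ℕ) : ℤ) ∣ (W n).Δ then 0 else ((p : ℕ) : ℂ) ^ (1 - 2 * s)))⁻¹) v := by
  refine (congrArg (fun g => HasProd g _) (funext fun p => ?_)).mp h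
  have hp : (p : ℕ).Prime := p.2
  haveI : Fact (p : ℕ).Prime := ⟨hp⟩
  have hΔ : ((p : ℕ) : ℤ) ∣ (W n).Δ ↔ (p : ℕ) ∣ 24 ∨ (p : ℕ) ∣ n := by
    rw [W_Δ]
    have e : (2304 * (n : ℤ) ^ 6) = ((2304 * n ^ 6 : ℕ) : ℤ) := by push_cast; ring
    rw [e, Int.natCast_dvd_natCast, hp.dvd_mul]
    have e2 : (p : ℕ) ∣ 2304 ↔ (p : ℕ) ∣ 24 := by
      constructor
      · intro h
        have : (p : ℕ) ∣ 24 ^ 3 := h.trans (by norm_num)
        exact hp.dvd_of_dvd_pow this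
      · intro h
        exact (h.trans (by norm_num : 24 ∣ 2304))
    rw [e2]
    constructor
    · rintro (h | h)
      · exact Or.inl h
      · exact Or.inr (hp.dvd_of_dvd_pow h)
    · rintro (h | h)
      · exact Or.inl h
      · exact Or.inr (dvd_pow h (by norm_num))
  by_cases hp2 : (p : ℕ) = 2
  · have h24 : (p : ℕ) ∣ 24 := by rw [hp2]; norm_num
    rw [if_pos h24, if_pos (hΔ.2 (Or.inl h24)), hp2, ap_W_two_all, ap_E24_two]
    simp
  rw [hχ p hp hp2]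
  by_cases hpn : (p : ℕ) ∣ n
  · have h0 : jacobiSym (-(n : ℤ)) (p : ℕ) = 0 := by
      haveI : NeZero (p : ℕ) := ⟨hp.ne_zero⟩
      rw [jacobiSym.eq_zero_iff_not_coprime, Int.neg_gcd, Int.gcd_natCast_natCast]
      intro hg
      have := Nat.dvd_gcd hpn (dvd_refl (p : ℕ))
      rw [hg] at this
      exact hp.one_lt.ne' (Nat.dvd_one.1 this)
    rw [h0, if_pos (hΔ.2 (Or.inr hpn)), Pool.Agent.N877.P24.ap_W_dvd hp hp2 hpn]
    simp
  · have hx : jacobiSym (-(n : ℤ)) (p : ℕ) = 1 ∨ jacobiSym (-(n : ℤ)) (p : ℕ) = -1 := by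
      refine jacobiSym.eq_one_or_neg_one ?_
      rw [Int.neg_gcd, Int.gcd_natCast_natCast]
      exact ((Nat.Prime.coprime_iff_not_dvd hp).2 hpn).symm
    have hx2 : ((jacobiSym (-(n : ℤ)) (p : ℕ) : ℤ) : ℂ) ^ 2 = 1 := by
      rcases hx with h | h <;> rw [h] <;> norm_num
    rw [hx2, ap_twist' (p : ℕ) hp2 hpn]
    by_cases h24' : (p : ℕ) ∣ 24
    · rw [if_pos h24', if_pos (hΔ.2 (Or.inl h24'))]
      push_cast
      ring
    · rw [if_neg h24', if_neg (fun h => (hΔ.1 h).elim h24' hpn), mul_one, p_cpow hp.ne_zero]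
      push_cast
      ring

/-! ### the values -/

/-- what is proved for each twist: `L(E_n, 1) = c Ω` -/
def Value (n : ℕ) (c : ℝ) : Prop :=
  ∃ f : ℂ → ℂ, Differentiable ℂ f ∧
    (∀ s : ℂ, 2 < s.re → f s = ((W n).map (Int.castRingHom ℚ)).LSeries s) ∧
    f 1 = ((c * (2 * ∫ x in {x : ℝ | 0 < cubic (W n) x}, 1 / √(cubic (W n) x)) : ℝ) : ℂ) ∧
    (0 < ∫ x in {x : ℝ | 0 < cubic (W n) x}, 1 / √(cubic (W n) x)) ∧
    ∀ s : ℂ, 3 / 2 < s.re → HasProd (fun p : Nat.Primes =>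
      (1 - (ap (W n) p : ℂ) * ((p : ℕ) : ℂ) ^ (-s) +
        (if ((p : ℕ) : ℤ) ∣ (W n).Δ then 0 else ((p : ℕ) : ℂ) ^ (1 - 2 * s)))⁻¹) (f s)

/-- **The central value, `n ≡ 3 mod 24`.** -/
theorem valueA3 (h1 : S_DIAGA3) (h2 : S_SUMC) {n : ℕ} (hn : ClA3 n) :
    Value n ((cc n : ℝ) ^ 2 / 1152) := by
  have h24 := hn.2
  obtain ⟨f, sm, k1, k2, k3, k4, k5, k6⟩ := value_odd hn.1 (by omega) (by omega)
  refine ⟨f, k1, k3, ?_, k5, fun s hs => euler_gen (χ := fun m => jacobiSym (m : ℤ) n)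
    (fun p hp hp2 => jac_recip (by omega) hp hp2) (k6 s hs)⟩
  rw [(h2 sm k2).1 n hn] at k4
  have h3 : (288 : ℝ) * ((∑ u ∈ un n, jacobiSym u n * FC (2 * u) n : ℤ) : ℝ) =
    ((cc n : ℤ) : ℝ) ^ 2 := by exact_mod_cast h1 n hn
  rw [← h3]
  have e : f 1 = (2 * f 1) / 2 := by ring
  rw [e, k4]
  push_cast
  ring

/-- **The central value, `n ≡ 6 mod 12`.** -/
theorem valueE6 (h1 : S_DIAGE6) (h2 : S_SUMC) {n : ℕ} (hn : ClE6 n) :
    Value n ((ce n : ℝ) ^ 2 / 576) := by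
  have h24 := hn.2
  obtain ⟨f, sm, k1, k2, k3, k4, k5, k6⟩ := value_even hn.1 (by omega) (by omega)
  have hE : Ev (4 * n) := ⟨n, rfl, hn.1, Or.inr (by omega)⟩
  refine ⟨f, k1, k3, ?_, k5, fun s hs => euler_gen (χ := fun m => chE (4 * n) (m : ℤ))
    (fun p hp hp2 => by
      have h := chE_prime hE hp hp2
      rw [Nat.mul_div_cancel_left n (by norm_num)] at h
      exact h) (k6 s hs)⟩
  rw [(h2 sm k2).2 n (Or.inr hn)] at k4
  have h3 : (72 : ℝ) * ((∑ u ∈ un (4 * n), chE (4 * n) u * FC u (2 * n) : ℤ) : ℝ) =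
    ((ce n : ℤ) : ℝ) ^ 2 := by exact_mod_cast h1 n hn
  rw [← h3]
  have e : f 1 = (4 * f 1) / 4 := by ring
  rw [e, k4]
  push_cast
  ring

/-- **The central value, `n ≡ 2 mod 12`.** -/
theorem valueE2 (h1 : S_DIAGE2) (h2 : S_SUMC) {n : ℕ} (hn : ClE2 n) :
    Value n ((ce n : ℝ) ^ 2 / 288) := by
  have h24 := hn.2
  obtain ⟨f, sm, k1, k2, k3, k4, k5, k6⟩ := value_even hn.1 (by omega) (by omega)
  have hE : Ev (4 * n) := ⟨n, rfl, hn.1, Or.inr (by omega)⟩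
  refine ⟨f, k1, k3, ?_, k5, fun s hs => euler_gen (χ := fun m => chE (4 * n) (m : ℤ))
    (fun p hp hp2 => by
      have h := chE_prime hE hp hp2
      rw [Nat.mul_div_cancel_left n (by norm_num)] at h
      exact h) (k6 s hs)⟩
  rw [(h2 sm k2).2 n (Or.inl hn)] at k4
  have h3 : (36 : ℝ) * ((∑ u ∈ un (4 * n), chE (4 * n) u * FC u (2 * n) : ℤ) : ℝ) =
    ((ce n : ℤ) : ℝ) ^ 2 := by exact_mod_cast h1 n hn
  rw [← h3]
  have e : f 1 = (4 * f 1) / 4 := by ring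
  rw [e, k4]
  push_cast
  ring

end Pool.Agent.N402.P24L
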